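import Pool.Agent.Helper69.RF.St

/-!
# Project RF: basic facts about the conjugates `cR n j`
-/

set_option autoImplicit false

open Polynomial Helper62.Weber

namespace Pool.Agent.Helper69.RF

theorem cR_one (n : ℕ) : cR n 1 = XR n := by
  rw [cR, XR, Nat.cast_one, mul_one]

theorem cR_C (n j : ℕ) : ((cR n j : ℝ) : ℂ) = zC n ^ j + (zC n ^ j)⁻¹ := cos_eq n j

theorem cR_zero (n : ℕ) : cR n 0 = 2 := by
  rw [cR, Nat.cast_zero, mul_zero, zero_div, Real.cos_zero, mul_one]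

theorem cR_sq (n j : ℕ) : cR (n + 1) j ^ 2 = 2 + cR n j := by
  have h : 2 * Real.pi * (j : ℝ) / 2 ^ (n + 2) = 2 * (2 * Real.pi * (j : ℝ) / 2 ^ (n + 1 + 2)) := by
    field_simp
    ring
  rw [cR, cR, h, Real.cos_two_mul]
  ring

theorem cR_half (n j : ℕ) : cR n (j + 2 ^ (n + 1)) = -cR n j := by
  have h : 2 * Real.pi * ((j + 2 ^ (n + 1) : ℕ) : ℝ) / 2 ^ (n + 2) =
      2 * Real.pi * (j : ℝ) / 2 ^ (n + 2) + Real.pi := by
    push_cast
    field_simp
    ring
  rw [cR, cR, h, Real.cos_add_pi]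
  ring

theorem cR_per (n j : ℕ) : cR n (j + 2 ^ (n + 2)) = cR n j := by
  have h : j + 2 ^ (n + 2) = j + 2 ^ (n + 1) + 2 ^ (n + 1) := by ring
  rw [h, cR_half, cR_half, neg_neg]

theorem cR_mul (n a b : ℕ) : cR n (a + b) * cR n b = cR n (a + 2 * b) + cR n a := by
  have e1 : 2 * Real.pi * ((a + 2 * b : ℕ) : ℝ) / 2 ^ (n + 2) =
      2 * Real.pi * ((a + b : ℕ) : ℝ) / 2 ^ (n + 2) + 2 * Real.pi * (b : ℝ) / 2 ^ (n + 2) := by
    push_cast; ring
  have e2 : 2 * Real.pi * (a : ℝ) / 2 ^ (n + 2) =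
      2 * Real.pi * ((a + b : ℕ) : ℝ) / 2 ^ (n + 2) - 2 * Real.pi * (b : ℝ) / 2 ^ (n + 2) := by
    push_cast; ring
  rw [cR, cR, cR, cR, e1, e2, Real.cos_add, Real.cos_sub]
  ring

theorem cR_int (n j : ℕ) : IsIntegral ℤ (cR n j) := by
  have h1 : IsIntegral ℤ (zC n) := (zC_prim n).isIntegral (by positivity)
  have h2 : IsIntegral ℤ (zC n)⁻¹ := ((zC_prim n).inv).isIntegral (by positivity)
  have h3 : IsIntegral ℤ ((cR n j : ℝ) : ℂ) := by
    rw [cR_C, ← inv_pow]
    exact (h1.pow _).add (h2.pow _)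
  exact (isIntegral_algHom_iff (Complex.ofRealAm.restrictScalars ℤ) Complex.ofReal_injective).1 h3

theorem XR_int (n : ℕ) : IsIntegral ℤ (XR n) := by
  rw [← cR_one]; exact cR_int n 1

theorem XR_zero : XR 0 = 0 := by
  rw [XR]
  have h : 2 * Real.pi / 2 ^ (0 + 2) = Real.pi / 2 := by norm_num; ring
  rw [h, Real.cos_pi_div_two, mul_zero]

theorem XR_lt {m n : ℕ} (h : m < n) : XR m < XR n := by
  rw [XR, XR]
  have hp := Real.pi_pos
  have h1 : (2 : ℝ) ^ (m + 2) < 2 ^ (n + 2) := pow_lt_pow_right₀ (by norm_num) (by omega)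
  have h2 : 2 * Real.pi / 2 ^ (n + 2) < 2 * Real.pi / 2 ^ (m + 2) :=
    div_lt_div_of_pos_left (by positivity) (by positivity) h1
  have h3 : (4 : ℝ) ≤ 2 ^ (m + 2) := by
    have : (2 : ℝ) ^ 2 ≤ 2 ^ (m + 2) := pow_le_pow_right₀ (by norm_num) (by omega)
    linarith
  have h4 : 2 * Real.pi / 2 ^ (m + 2) ≤ Real.pi := by
    rw [div_le_iff₀ (by positivity)]
    nlinarith
  have h5 := Real.cos_lt_cos_of_nonneg_of_le_pi (by positivity) h4 h2
  linarith

theorem XR_inj : Function.Injective XR := by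
  intro m n h
  rcases lt_trichotomy m n with h1 | h1 | h1
  · exact absurd h (ne_of_lt (XR_lt h1))
  · exact h1
  · exact absurd h.symm (ne_of_lt (XR_lt h1))

theorem XR_pos {n : ℕ} (hn : 1 ≤ n) : 0 < XR n := by
  have := XR_lt (show 0 < n by omega)
  rwa [XR_zero] at this

theorem zC_half (n : ℕ) : zC n ^ 2 ^ (n + 1) = -1 := by
  have := congrArg (fun y : L n => (y : ℂ)) (z_half n)
  exact this

/-- `ℤ[X]`-values through `ℚ[X]` -/
theorem aeval_Z {R : Type*} [CommRing R] [Algebra ℚ R] (x : R) (p : ℤ[X]) :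
    aeval x p = aeval x (p.map (Int.castRingHom ℚ)) := by
  rw [← Polynomial.aeval_map_algebraMap ℚ x p]
  rfl

theorem indep (n : ℕ) (c : ℕ → ℤ)
    (h : ∑ k ∈ Finset.range (2 ^ (n + 1)), (c k : ℂ) * zC n ^ k = 0) :
    ∀ k < 2 ^ (n + 1), c k = 0 := by
  set f : ℤ[X] := ∑ k ∈ Finset.range (2 ^ (n + 1)), C (c k) * X ^ k with hf
  have h1 : aeval (zC n) f = 0 := by
    rw [hf, map_sum, ← h]
    apply Finset.sum_congr rfl
    intro k _
    rw [map_mul, map_pow, aeval_X, aeval_C]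
    rfl
  have hdeg : f.degree < ((2 ^ (n + 1) : ℕ) : WithBot ℕ) := by
    apply lt_of_le_of_lt (degree_sum_le _ _)
    rw [Finset.sup_lt_iff (WithBot.bot_lt_coe _)]
    intro k hk
    exact lt_of_le_of_lt (degree_C_mul_X_pow_le _ _) (by exact_mod_cast Finset.mem_range.1 hk)
  have h2 : f = 0 := by
    by_contra h0
    have h3 : cyclotomic (2 ^ (n + 2)) ℤ ∣ f := by
      rw [cyclotomic_eq_minpoly (zC_prim n) (by positivity)]
      exact minpoly.isIntegrallyClosed_dvd ((zC_prim n).isIntegral (by positivity)) h1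
    have h4 := natDegree_le_of_dvd h3 h0
    rw [natDegree_cyclotomic, Nat.totient_prime_pow Nat.prime_two (by omega)] at h4
    have h5 : f.natDegree < 2 ^ (n + 1) := (natDegree_lt_iff_degree_lt h0).2 hdeg
    have h6 : n + 2 - 1 = n + 1 := by omega
    rw [h6] at h4
    omega
  intro k hk
  have h3 := congrArg (fun p : ℤ[X] => p.coeff k) h2
  simp only [hf, finsetSum_coeff, coeff_C_mul, coeff_X_pow, coeff_zero] at h3
  rw [Finset.sum_eq_single k (fun b _ hb => by rw [if_neg (Ne.symm hb), mul_zero])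
    (fun hk' => absurd (Finset.mem_range.2 hk) hk')] at h3
  simpa using h3

/-- conjugation: a polynomial relation of `XR n` holds for all `cR n j`, `j` odd -/
theorem conj_zero {n j : ℕ} (hj : Odd j) (p : ℚ[X]) (h : aeval (XR n) p = 0) :
    aeval (cR n j) p = 0 := by
  obtain ⟨g, hg⟩ := exists_aut n j hj
  have h1 : ((res n g (xB n) : B n) : ℝ) = cR n j := by
    apply aut_x
    rw [res_spec, iB_x, map_add, map_inv₀, hg]
  have h2 : (aeval (xB n) p : B n) = 0 := by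
    apply Subtype.ext
    have := (aeval_algHom_apply (B n).val (xB n) p).symm
    exact this.trans h
  have h3 : aeval (res n g (xB n)) p = 0 := by
    have := aeval_algHom_apply ((res n g : B n ≃ₐ[ℚ] B n) : B n →ₐ[ℚ] B n) (xB n) p
    rw [h2, map_zero] at this
    exact this
  have h4 := aeval_algHom_apply (B n).val (res n g (xB n)) p
  rw [h3, map_zero] at h4
  rw [← h1]
  exact h4

theorem conj_zeroZ {n j : ℕ} (hj : Odd j) (p : ℤ[X]) (h : aeval (XR n) p = 0) :
    aeval (cR n j) p = 0 := by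
  rw [aeval_Z] at h ⊢
  exact conj_zero hj _ h

theorem conj_int {n j : ℕ} (hj : Odd j) (p q : ℚ[X])
    (h : IsIntegral ℤ (aeval (XR n) p / aeval (XR n) q)) :
    IsIntegral ℤ (aeval (cR n j) p / aeval (cR n j) q) := by
  obtain ⟨g, hg⟩ := exists_aut n j hj
  have h1 : ((res n g (xB n) : B n) : ℝ) = cR n j := by
    apply aut_x
    rw [res_spec, iB_x, map_add, map_inv₀, hg]
  have e0 : ∀ r : ℚ[X], ((aeval (xB n) r : B n) : ℝ) = aeval (XR n) r := fun r =>
    (aeval_algHom_apply (B n).val (xB n) r).symm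
  have h2 : IsIntegral ℤ ((aeval (xB n) p / aeval (xB n) q : B n) : ℝ) := by
    have : ((aeval (xB n) p / aeval (xB n) q : B n) : ℝ) = aeval (XR n) p / aeval (XR n) q := by
      rw [← e0, ← e0]; rfl
    rw [this]; exact h
  have h3 := int_coe h2
  have h4 : IsIntegral ℤ (res n g (aeval (xB n) p / aeval (xB n) q)) :=
    h3.map (((res n g : B n ≃ₐ[ℚ] B n) : B n →ₐ[ℚ] B n).restrictScalars ℤ)
  have e1 : ∀ r : ℚ[X], res n g (aeval (xB n) r) = aeval (res n g (xB n)) r := fun r =>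
    (aeval_algHom_apply ((res n g : B n ≃ₐ[ℚ] B n) : B n →ₐ[ℚ] B n) (xB n) r).symm
  have e2 : ∀ r : ℚ[X], ((aeval (res n g (xB n)) r : B n) : ℝ) = aeval (cR n j) r := fun r => by
    rw [← h1]
    exact (aeval_algHom_apply (B n).val (res n g (xB n)) r).symm
  rw [map_div₀, e1, e1] at h4
  have h5 : IsIntegral ℤ ((aeval (res n g (xB n)) p / aeval (res n g (xB n)) q : B n) : ℝ) :=
    h4.map ((B n).val.restrictScalars ℤ)
  have : ((aeval (res n g (xB n)) p / aeval (res n g (xB n)) q : B n) : ℝ) =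
      aeval (cR n j) p / aeval (cR n j) q := by
    rw [← e2, ← e2]; rfl
  rw [this] at h5
  exact h5

theorem conj_intZ {n j : ℕ} (hj : Odd j) (p q : ℤ[X])
    (h : IsIntegral ℤ (aeval (XR n) p / aeval (XR n) q)) :
    IsIntegral ℤ (aeval (cR n j) p / aeval (cR n j) q) := by
  rw [aeval_Z, aeval_Z (XR n)] at h
  rw [aeval_Z, aeval_Z (cR n j)]
  exact conj_int hj _ _ h

/-- `-X_n` is a conjugate of `X_n` -/
theorem neg_XR (n : ℕ) : -XR n = cR n (1 + 2 ^ (n + 1)) := by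
  rw [cR_half, cR_one]

theorem odd_half (n : ℕ) : Odd (1 + 2 ^ (n + 1)) := by
  rw [add_comm]
  exact Even.add_one (by rw [pow_succ]; exact even_two.mul_left _)

end Pool.Agent.Helper69.RF
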