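import Mathlib
import Pool.Agent.Helper62.Weber.Stmt

/-!
# Project RF (MP_e74dc5_nt): sizes and uniform families of the relative units

THEOREM A.  Every `u` in `RE_n^+` other than `1, -1` has mean of the squares of its conjugates at
least `4 n + 5`.  THEOREM B.  Let `g, h` be integer polynomials, `h ≠ 0`.  Either
`g(X_n)/h(X_n)` lies in `<-1, ε_n>` for all large `n`, or for all large `n` at most `deg g` of the
integers `m` in `[n, n^2]` are such that `g(X_m)/h(X_m)` lies in `RE_m^+`.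

Every `Prop` below is one module (`RF MODULE <name>`): prove `theorem c<name> : <name>` in
`Pool/Agent/<You>/RF/M_<name>.lean`, importing `Pool.Agent.Helper69.RF.Bas` (which imports this
file and proves basic facts about `cR`).  Useful facts proved in `Pool.Agent.Helper62.Weber.*`
(imported here): `zC n = exp(2 π i / 2^(n+2))`, `zC_prim`, `XR_eq : (XR n : ℂ) = zC n + (zC n)⁻¹`,
`cos_eq`, `L n = ℚ(zC n)`, `B n = ℚ(XR n)`, `z n`, `xB n`, `iB n : B n → L n`, `exists_aut` (the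
automorphisms of `L n`, `z n ↦ z n ^ j`, `j` odd), `res`, `res_spec`, `aut_x`, `z_half`,
`XR_pred : XR (n-1) = XR n ^ 2 - 2`.
-/

set_option autoImplicit false

open Polynomial Helper62.Weber

noncomputable section

namespace Pool.Agent.Helper69.RF

/-- `2 cos (2 π j / 2^(n+2))`; for `j` odd these are the conjugates of `X_n = XR n` -/
def cR (n j : ℕ) : ℝ := 2 * Real.cos (2 * Real.pi * j / 2 ^ (n + 2))

/-! ## Theorem A -/

/-- MODULE DET (100 lines).  Over `ℚ` the set `R` spans `ℚ^s` (otherwise a nonzero linear form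
`v ↦ ∑ l_i v_i` vanishes on the span of `R`), so `R` contains `s` linearly independent vectors: a
matrix `A` with rows in `R`, integer entries and `det A ≠ 0`.  `A.adjugate * A = det A` gives
`det A * k_i = ∑_j adj_(ij) (A k)_j`, divisible by `2^m`; take `k_i` odd: `2^m ∣ det A`.  And
`|det A| ≤ ∏_rows ∑_j |A_(ij)| ≤ 4^s` (expand the determinant; every term of it is a term of the
expanded product).  So `2^m ≤ |det A| ≤ 4^s`.  (For `s = 0` the last hypothesis is false.) -/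
def DET : Prop := ∀ (s m : ℕ) (k : Fin s → ℤ) (R : Set (Fin s → ℤ)),
  (∀ r ∈ R, ∑ i, |r i| ≤ 4) →
  (∀ r ∈ R, (2 : ℤ) ^ m ∣ ∑ i, r i * k i) →
  (∀ l : Fin s → ℚ, (∀ r ∈ R, ∑ i, (r i : ℚ) * l i = 0) → l = 0) →
  (∃ i, Odd (k i)) →
  2 ^ m ≤ 4 ^ s

/-- MODULE GRD (150 lines).  Let `m` be the maximum of `L` on `T` and suppose `m > 0`.  Let
`T' = {t ∈ T : L t = m}` (nonempty, `0 ∉ T'`).  `E = ∑_(t∈T') a_t z^t ≠ 0` and
`E' = ∑_(t∈T') (-1)^t a_t z^t ≠ 0`: the elements of `T'` are different modulo `N`,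
`z^t = ± z^(t mod N)`, so both are integer combinations of `1, z, ..., z^(N-1)` in which the
coefficient at `t mod N` is `± a_t ≠ 0`.  For `ρ < N` let `P_ρ` be the set of the pairs `(t, t')`
in `T × T` with `t + t' = ρ mod N` and `P'_ρ` the set of those in `T' × T'`.  If `P'_ρ` is not
empty, then `L t + L t' = 2m` for all `(t, t')` in `P_ρ` (hypothesis on `L`), hence `L t = L t' = m`
(both are `≤ m`) and `P_ρ = P'_ρ`; moreover `ρ ≠ 0`, because for `ρ = 0` the pair `(0, 0)` has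
`L 0 + L 0 = 0 ≠ 2m`.  The coefficient of `z^ρ` in the product of the two sums over `T` is
`c_ρ = ∑_(P_ρ) ± a_t a_t'` (signs: `(-1)^t'` and `z^(t+t') = (-1)^((t+t') div N) z^ρ`), and it is
`1` for `ρ = 0` and `0` for the other `ρ`, as the product is `1` and the `z^ρ` are independent.  So
`E * E' = ∑_ρ (∑_(P'_ρ) ...) z^ρ = 0`: each inner sum is either empty or equals `c_ρ = 0`.  This
contradicts `E ≠ 0`, `E' ≠ 0`. -/
def GRD : Prop := ∀ (N : ℕ) (z : ℂ), 1 ≤ N → z ^ N = -1 →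
  (∀ c : ℕ → ℤ, ∑ k ∈ Finset.range N, (c k : ℂ) * z ^ k = 0 → ∀ k < N, c k = 0) →
  ∀ (T : Finset ℤ) (a : ℤ → ℤ) (L : ℤ → ℚ),
  (∀ t ∈ T, ∀ t' ∈ T, (N : ℤ) ∣ t - t' → t = t') →
  (0 : ℤ) ∈ T → (∀ t ∈ T, t ≠ 0 → a t ≠ 0) → L 0 = 0 →
  (∀ t ∈ T, ∀ t' ∈ T, ∀ w ∈ T, ∀ w' ∈ T, (N : ℤ) ∣ t + t' - (w + w') →
    L t + L t' = L w + L w') →
  (∑ t ∈ T, (a t : ℂ) * z ^ t) * (∑ t ∈ T, (-1 : ℂ) ^ t * (a t : ℂ) * z ^ t) = 1 →
  ∀ t ∈ T, L t ≤ 0

/-- MODULE COO (120 lines).  `x` is an algebraic integer of `ℚ(ζ)`, `ζ = zC n`, and the ring of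
integers of `ℚ(ζ)` is `ℤ[ζ]` (Mathlib: `IsCyclotomicExtension.Rat.isIntegralClosure_adjoin_singleton_of_prime_pow`
or the version for `ringOfIntegers`), so `x = ∑_(k<N) b_k ζ^k`, `N = 2^(n+1)`, `ζ^N = -1`.  Complex
conjugation: `x = ∑ b_k ζ^(-k) = b_0 - ∑_(0<k<N) b_k ζ^(N-k)`, so by independence
`b_(N-k) = - b_k` for `0 < k < N`; in particular `b_(N/2) = 0`, `N/2 = 2^n`.  Hence
`x = b_0 + ∑_(0<k<2^n) b_k (ζ^k - ζ^(N-k)) = b_0 + ∑ b_k (ζ^k + ζ^(-k)) = b_0 + ∑ b_k cR n k`. -/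
def COO : Prop := ∀ (n : ℕ) (x : ℝ) (p : ℚ[X]), IsIntegral ℤ x → x = aeval (XR n) p →
  ∃ a : ℕ → ℤ, x = a 0 + ∑ k ∈ Finset.Ico 1 (2 ^ n), (a k : ℝ) * cR n k

/-- MODULE PAR (150 lines).  For every odd `j`:
`aeval (cR n j) p = a_0 + ∑_k a_k cR n (j k)` (apply the automorphism `ζ ↦ ζ^j` of `L n` to
`p(ζ + 1/ζ) = a_0 + ∑ a_k (ζ^k + ζ^(-k))`); the case `j = 1 + 2^(n+1)` is the second claim
(`cR n (k + 2^(n+1) k) = (-1)^k cR n k`, `cR n (1 + 2^(n+1)) = - XR n`).  First claim: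
`cR n (jk) * cR n (jl) = cR n (j (k+l)) + cR n (j |k-l|)` and, for `0 ≤ e < 2^(n+1)`,
`∑_(i<2^n) cR n ((2i+1) e) = 0` if `e ≠ 0` and `= 2^(n+1)` if `e = 0` (geometric sum, or
`2 sin(θ) ∑ cos((2i+1) θ) = sin(2^(n+1) θ)` with `θ = 2π e/2^(n+2)`, `2^(n+1) θ = π e`,
`0 < θ < π`). -/
def PAR : Prop := ∀ (n : ℕ) (a : ℕ → ℤ) (p : ℚ[X]),
  aeval (XR n) p = a 0 + ∑ k ∈ Finset.Ico 1 (2 ^ n), (a k : ℝ) * cR n k →
  (∑ i ∈ Finset.range (2 ^ n), (aeval (cR n (2 * i + 1)) p) ^ 2 =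
    2 ^ n * ((a 0 : ℝ) ^ 2 + 2 * ∑ k ∈ Finset.Ico 1 (2 ^ n), (a k : ℝ) ^ 2)) ∧
  aeval (-XR n) p = a 0 + ∑ k ∈ Finset.Ico 1 (2 ^ n), (-1 : ℝ) ^ k * (a k : ℝ) * cR n k

/-- MODULE ASC (100 lines).  In `O_k = ℤ[X_k]` (`X_k = XR k`, `k ≥ 1`) the elements `X_k^(2^k)` and
`2` are associated.  `X_(k+1)^2 = 2 + X_k`, `X_0 = 0`, `X_1^2 = 2`;
`(2 + X_k)(2 - X_k) = 4 - X_k^2 = 2 - X_(k-1)`, so for `k ≥ 2`:
`2 = 2 - X_0 = (2 - X_(k-1)) ∏_(i=2)^k (2 + X_(i-1)) = (2 - X_(k-1)) ∏_(i=2)^k X_i^2`, an identity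
in `O_k` (all `X_i`, `i ≤ k`, lie in `O_k`: `X_(i-1) = X_i^2 - 2`).  So `X_k^2 ∣ 2` in `O_k`, for
`k ≥ 2`, hence `X_k^2 ∣ X_k^2 - 2 = X_(k-1)`; and `X_(k-1) ∣ 2` in `O_(k-1)` gives
`X_(k-1) ∣ 2 + X_(k-1) = X_k^2`.  So `X_k^2` and `X_(k-1)` are associated in the domain `O_k`, and
by induction `X_k^(2^k) = (X_k^2)^(2^(k-1)) ~ X_(k-1)^(2^(k-1)) ~ 2`.  The second claim is for
`y = X_k^2 = 2 + X_(k-1)` in `O_(k-1) = ℤ[y]`: for `k = 1`, `y = 2`; for `k ≥ 2`, `y = X_(k-1) + 2`,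
`X_(k-1) ∣ 2` in `O_(k-1)`, and `y ∣ 2` in `O_(k-1)` by the displayed identity, so `y ~ X_(k-1)`
there and `y^(2^(k-1)) ~ X_(k-1)^(2^(k-1)) ~ 2` by the first claim for `k - 1`. -/
def ASC : Prop := ∀ k : ℕ, 1 ≤ k →
  (∃ v w : ℝ, v ∈ Algebra.adjoin ℤ {XR k} ∧ w ∈ Algebra.adjoin ℤ {XR k} ∧
    XR k ^ 2 ^ k = 2 * v ∧ 2 = XR k ^ 2 ^ k * w) ∧
  (∃ v w : ℝ, v ∈ Algebra.adjoin ℤ {XR k ^ 2} ∧ w ∈ Algebra.adjoin ℤ {XR k ^ 2} ∧
    (XR k ^ 2) ^ 2 ^ (k - 1) = 2 * v ∧ 2 = (XR k ^ 2) ^ 2 ^ (k - 1) * w)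

/-- MODULE EVN (150 lines).  Put `y = X_n^2`, `O = ℤ[y] = Algebra.adjoin ℤ {y}` inside `ℝ`,
`e = 2^(n-1)`; by the second part of ASC `y^e = 2 v`, `2 = y^e w` with `v, w ∈ O`.
(1) By COO and `cR n k ∈ ℤ[X_n]` (`cR n (k+2) = XR n * cR n (k+1) - cR n k`), `u = q(X_n)` with
`q ∈ ℤ[X]`, and splitting `q` into its even and odd parts `u = A + X_n B` with `A, B ∈ O`.  The
relation `aeval (XR n) p * aeval (-XR n) p = 1` of `relUnits` gives `(A + X_n B)(A - X_n B) = 1`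
(`p - q` vanishes at `X_n`, hence at `- X_n`: `-X_n = cR n (1 + 2^(n+1))` is a conjugate of `X_n`,
lemma `conj_zero` of `Bas`), i.e. `A^2 - y B^2 = 1`.
(2) `y` is prime in `O`: every element of `O` is `k + y o`, `k ∈ ℤ`, `o ∈ O`, and `y ∣ 2`.  If
`y ∣ x x'` and `x, x'` are not divisible by `y`, their `k, k'` are odd, so `y` divides an odd
integer and `2`, hence `1`; then `2 = y^e w` and `y^e = 2v` make `1/2` an element of `O`, an
algebraic integer: contradiction.  (`y ≠ 0`.)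
(3) For all `a ≤ e`: `y^a ∣ A - 1` and `y^a ∣ B` in `O`.  Step: `A - 1 = y^a C`, `B = y^a B'`,
`a < e`: `(A-1)(A+1) = y B^2` reads `y^a C (y^a C + 2) = y^(2a+1) B'^2`, `2 = y^e w`, so
`C (C + y^(e-a) w) = y B'^2`; `y ∣ C` or `y ∣ C + y^(e-a) w`, in both cases `C = y C'`; then
`C' (y C' + y^(e-a) w) = B'^2`, so `y ∣ B'^2`, `y ∣ B'`.
(4) `a = e`: `(u - 1)/2 = (A - 1)/2 + X_n B/2 = y^e (..)/2 + X_n y^e (..)/2` lies in `ℤ[X_n]`. -/
def EVN : Prop := COO → ASC → ∀ (n : ℕ) (u : ℝˣ), 1 ≤ n → u ∈ relUnits n →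
  IsIntegral ℤ (((u : ℝ) - 1) / 2)

/-! ## Theorem B -/

/-- MODULE RAT (120 lines).  `g ≠ 0` since `h ≠ 0`.  In `ℤ[X]` write `g = D P₀`, `h = D Q₀` with
`D = gcd` in `ℚ[X]` cleared of denominators, or directly: over `ℚ`, `g = D p`, `h = D q`, `p, q`
coprime.  Then `p p(-X) = q q(-X)`.  `p ∣ q q(-X)` and coprime to `q`: `p ∣ q(-X)`; `q(-X) ∣ p p(-X)`
and `q(-X)` is coprime to `p(-X)`: `q(-X) ∣ p`.  So `q(-X) = c p`, `c ∈ ℚ`, `c ≠ 0`,
`q = c p(-X)`, and `p p(-X) = c^2 p(-X) p`, `c = ± 1`.  Let `P` be a primitive integer polynomial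
which is a rational multiple of `p`; it is coprime over `ℚ` to `P(-X)`, `g / h = p / q =
(1/c) P / P(-X)`, and `deg P = deg p ≤ deg g`. -/
def RAT : Prop := ∀ g h : ℤ[X], h ≠ 0 → g * g.comp (-X) = h * h.comp (-X) →
  ∃ (P : ℤ[X]) (e : ℤ), P.IsPrimitive ∧ (e = 1 ∨ e = -1) ∧ P.natDegree ≤ g.natDegree ∧
    IsCoprime (P.map (Int.castRingHom ℚ)) ((P.comp (-X)).map (Int.castRingHom ℚ)) ∧
    g * P.comp (-X) = C e * (P * h)

/-- MODULE UNT (250 lines).  There are `U, V ∈ ℤ[X]` and an integer `r ≠ 0` with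
`U P + V P(-X) = r`.  `s` is the least index such that the coefficient `p_s` is odd (`P` is
primitive).  `N0 = |r|^(deg P + 1) + s + 2`.  Let `n ≥ N0`, `O` the ring of all algebraic integers
in `ℂ` (`integralClosure ℤ ℂ`), `x = X_n ∈ O`.  By ASC `2 = x^(2^n) w` and `x^(2^n) = 2 v`,
`v, w ∈ O`; `2^n > s`.
(1) `P(x) = x^s α` with `α = p_s + x β`, `β ∈ O` (the `p_i`, `i < s`, are even, so divisible by
`x^(2^n)`, so by `x^(s+1)`).
(2) `α` is a unit of `O`.  Otherwise it lies in a maximal ideal `M` of `O`, `k = O/M` is a field of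
prime characteristic `l` (`O` is integral over `ℤ`: `M ∩ ℤ` is maximal, so not zero).  If `l = 2`:
`x^(2^n) = 2 v ∈ M`, `x ∈ M`, so `p_s ∈ M`, odd and `2 ∈ M`: `1 ∈ M`, contradiction.  If `l` is odd:
`P(x) ∈ M`, and `P(-x) = P(x) * (P(-x)/P(x))` with the quotient in `O`: `P(-x) ∈ M`.  So `r ∈ M`,
`l ∣ r`, `l ≤ |r|`.  Let `x_i ∈ O` be `XR (n - i)` for `0 ≤ i ≤ n`: `x_0 = x`,
`x_(i+1) = x_i^2 - 2`, `x_n = XR 0 = 0`; let `y_i ∈ k` be their classes.  `y_0` is a root of `P mod l`,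
which is not zero (`P` is primitive), of degree `≤ D = deg P`; so the subring `F_l[y_0]` of `k` is
finite with at most `l^D` elements (`D ≥ 1` as there is a root), and contains all `y_i`.  The `y_i`,
`0 ≤ i ≤ n`, are different: if `y_i = y_j`, `i < j ≤ n`, then applying `y ↦ y^2 - 2` `n - j` times,
`y_(n-j+i) = y_n = 0`, and then the next values are `-2, 2, 2, 2, ...`, so `y_n ∈ {-2, 2}`, while
`y_n = 0` and `l ≠ 2`.  So `n + 1 ≤ l^D ≤ |r|^D`, against `n ≥ N0`.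
(3) So `P(x)/x^s = α` and its inverse are algebraic integers (in `ℂ`, hence in `ℝ`). -/
def UNT : Prop := ASC → ∀ P : ℤ[X], P.IsPrimitive →
  IsCoprime (P.map (Int.castRingHom ℚ)) ((P.comp (-X)).map (Int.castRingHom ℚ)) →
  ∃ s N0 : ℕ, ∀ n ≥ N0, aeval (XR n) P ≠ 0 → aeval (-XR n) P ≠ 0 →
    IsIntegral ℤ (aeval (-XR n) P / aeval (XR n) P) →
    IsIntegral ℤ (aeval (XR n) P / XR n ^ s) ∧ IsIntegral ℤ (XR n ^ s / aeval (XR n) P)

/-- MODULE PSI (60 lines).  `∏_(i<2^m) (β + 1/β - cR m (2i+1)) = β^(2^m) + β^(-2^m)`.  Induction on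
`m`; `m = 0`: `cR 0 1 = 2 cos (π/2) = 0`.  Step: in the product for `m + 1` (`i < 2^(m+1)`) pair `i`
with `2^(m+1) - 1 - i`: `cR (m+1) (2^(m+2) - j) = - cR (m+1) j`, so with `t = β + 1/β` the product is
`∏_(i<2^m) (t^2 - cR (m+1) (2i+1)^2) = ∏_(i<2^m) ((β^2 + β^(-2)) - cR m (2i+1))`, since
`cR (m+1) j ^2 = 2 + cR m j`, `t^2 = β^2 + β^(-2) + 2`.  Use the case `m` for `β^2`. -/
def PSI : Prop := ∀ (m : ℕ) (β : ℂ), β ≠ 0 →
  ∏ i ∈ Finset.range (2 ^ m), (β + β⁻¹ - (cR m (2 * i + 1) : ℂ)) =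
    β ^ 2 ^ m + (β⁻¹) ^ 2 ^ m

/-- MODULE NRM (120 lines).  For every odd `j` the numbers `P(cR n j) / (cR n j)^s` and
`(cR n j)^s / P(cR n j)` are algebraic integers (`conj_int` of `Bas`).  So
`ν = ∏_i P(cR n (2i+1)) / ∏_i (cR n (2i+1))^s` and `1/ν` are algebraic integers; `ν` is rational: the
product `∏_i P(cR n (2i+1))` is the norm of `P(xB n)` from `B n` to `ℚ` (`Algebra.norm_eq_prod_automorphisms`
or `norm_eq_prod_embeddings`; or: a product of values of `P` over all roots of the monic polynomial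
`∏_i (X - cR n (2i+1))`, whose coefficients are rational since it is the minimal polynomial of `XR n`:
degree `2^n`, all `cR n (2i+1)`, `i < 2^n`, are different and conjugate), and the same for `X^s`.  A
rational number which is a unit of the ring of algebraic integers is `± 1`, so
`|∏ P(cR n (2i+1))| = |∏ cR n (2i+1)|^s = 2^s` as `|∏_i cR n (2i+1)| = 2` by PSI with `β = I`
(`β + 1/β = 0`, `I^(2^n) + I^(-2^n) = ± 2` for `n ≥ 1`). -/
def NRM : Prop := PSI → ∀ (P : ℤ[X]) (n s : ℕ), 1 ≤ n → aeval (XR n) P ≠ 0 →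
  IsIntegral ℤ (aeval (XR n) P / XR n ^ s) → IsIntegral ℤ (XR n ^ s / aeval (XR n) P) →
  |∏ i ∈ Finset.range (2 ^ n), aeval (cR n (2 * i + 1)) P| = 2 ^ s

/-- MODULE MAH (250 lines).  Let `a` be the leading coefficient of `P`, `r` its degree,
`x_1, ..., x_r` its complex roots with multiplicity, `x_i = β_i + 1/β_i` with `|β_i| ≥ 1` (one of the
two solutions of `β^2 - x_i β + 1 = 0`).  With `M = 2^m`, PSI gives
`|∏_j P(cR m j)| = |a|^M ∏_i |β_i^M + β_i^(-M)|` (`j = 2i'+1`, `i' < M`).  Let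
`ρ = |a| ∏_i |β_i|` (`≥ 1`, Mahler measure).  If `ρ = 1` then `|a| = 1` and all `|β_i| = 1`; a `β`
with `P(β + 1/β) = 0` has `β + 1/β = x_i` for some `i`, so `β ∈ {β_i, 1/β_i}` and `|β| = 1`.  Suppose
`ρ > 1`.  For `|β_i| > 1`: `|β_i^M + β_i^(-M)| ≥ |β_i|^M (1 - |β_i|^(-2M)) ≥ |β_i|^M / 2` for `m`
large; for `|β_i| = 1`: `|β_i^M + β_i^(-M)| = |β_i^(2M) + 1|`.  So for `m ∈ A` large
`∏_(|β_i| = 1) |β_i^(2M) + 1| ≤ C 2^r ρ^(-M)`, hence (some factor is at most the `r`-th root; if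
there is no factor this is false for `m` large) there is `i` with `|β_i| = 1` and
`|β_i^(2M) + 1| ≤ δ_m := (C' ρ^(-M))^(1/r)` where `C' = max(C,1) 2^r`, and `C' ρ^(-M) < 1`.  Take
`n` large such that more than `r` elements `m` of `A` lie in `[n, n^2]`; two different ones
`m < m'` have the same `i`.  With `γ = β_i^(2^(m+1))`, `|γ + 1| ≤ δ_m`, `|γ| = 1`, `j = m' - m ≥ 1`:
`|γ^(2^j) - 1| = |γ^(2^j) - (-1)^(2^j)| ≤ 2^j |γ + 1| ≤ 2^(n^2) δ_n' ` where `δ_m ≤ δ_n` and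
`2^(n^2) δ_n → 0` (`δ_n` is `exp(- c 2^n)` up to a constant).  So `|γ^(2^j) - 1| ≤ 1/2`, while
`|γ^(2^j) + 1| = |β_i^(2^(m'+1)) + 1| ≤ δ_(m') ≤ 1/2`: the difference of `γ^(2^j) + 1` and
`γ^(2^j) - 1` is `2`, contradiction. -/
def MAH : Prop := PSI → ∀ (P : ℤ[X]) (C : ℝ) (A : Set ℕ), P ≠ 0 →
  (∀ m ∈ A, |∏ i ∈ Finset.range (2 ^ m), aeval (cR m (2 * i + 1)) P| ≤ C) →
  (∀ N : ℕ, ∃ n ≥ N, P.natDegree < (A ∩ Set.Icc n (n ^ 2)).ncard) →
  (P.leadingCoeff = 1 ∨ P.leadingCoeff = -1) ∧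
    ∀ β : ℂ, β ≠ 0 → aeval (β + β⁻¹) P = 0 → ‖β‖ = 1

/-- MODULE KRO (150 lines).  Let `r = deg P`, `a = ± 1` the leading coefficient,
`G = a ∑_i p_i (X^2 + 1)^i X^(r-i)`, a monic integer polynomial of degree `2r` with
`G(z) = a z^r P(z + 1/z)` for `z ≠ 0` and `G(0) = 1`.  Every complex root `β` of `G` is not `0` and
has `P(β + 1/β) = 0`, so `|β| = 1`; `β` is an algebraic integer all of whose conjugates are roots of
`G`, so of absolute value `1`: Kronecker (`NumberField.Embeddings.pow_eq_one_of_norm_eq_one` in the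
field `ℚ(β)`), `β` is a root of unity.  A monic integer polynomial all of whose complex roots are
roots of unity is a product of cyclotomic polynomials: strong induction on the degree; a root `β` is
a primitive `m`-th root of unity, `cyclotomic m ℤ` is its minimal polynomial over `ℤ`
(`cyclotomic_eq_minpoly`) and divides `G` (`minpoly.isIntegrallyClosed_dvd`), the quotient is monic
with roots among those of `G`. -/
def KRO : Prop := ∀ P : ℤ[X], (P.leadingCoeff = 1 ∨ P.leadingCoeff = -1) →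
  (∀ β : ℂ, β ≠ 0 → aeval (β + β⁻¹) P = 0 → ‖β‖ = 1) →
  ∃ F : Multiset ℕ, (∀ m ∈ F, 0 < m) ∧ ∀ z : ℂ, z ≠ 0 →
    z ^ P.natDegree * aeval (z + z⁻¹) P =
      (P.leadingCoeff : ℂ) * (F.map (fun m => aeval z (cyclotomic m ℤ))).prod

/-- MODULE HGR (200 lines).  `ζ = zC n`, of order `2^(n+2)`; `w d = (1 - ζ^d)/(1 + ζ^d)` for `d` odd
(`ζ^d ≠ ± 1`).  Let `H ≤ ℂˣ` be the subgroup generated by the `w d`, `d` odd, and `Cy ≤ ℂˣ` the image
of `cycUnits n` under `ℝˣ → ℂˣ`.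
(1) For `0 < m < 2^(n+2)`: `Φ_m(± ζ) ≠ 0` (`± ζ` have order `2^(n+2)`) and
`Φ_m(ζ)/Φ_m(-ζ) ∈ H`: strong induction, `∏_(d ∣ m) Φ_d(ζ)/Φ_d(-ζ) = (ζ^m - 1)/((-ζ)^m - 1)`, which is
`1` for `m` even and `(ζ^m - 1)/(-ζ^m - 1) = w m` for `m` odd.
(2) `w (-d) = - w d` (meaning `w (2^(n+2) - d)`), `w (3j) / w j = (ζ^(2j) + ζ^j + 1)/(ζ^(2j) - ζ^j + 1)
= (c + 1)/(c - 1)` with `c = ζ^j + ζ^(-j) = cR n j`, a generator of `Cy`.  As `3` and `-1` generate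
`(ℤ/2^(n+2))^*`, `w d ∈ w 1 * Cy` for every odd `d`.  (Or: for `5` instead of `3` and `-1`, note
`5 = - 3^k` for some `k`; any proof that `± 3^k` run through all odd classes modulo `2^(n+2)` is
fine, e.g. `orderOf 3 = 2^n` from `3^(2^(j+1)) = 1 + 2^(j+3) (odd)`, and `-1` is not a power of `3`
as `3^k = 1, 3 mod 8`.)
(3) `w (1 + 2^(n+1)) = (1 + ζ)/(1 - ζ) = 1 / w 1`, so `(w 1)^2 ∈ Cy`.
(4) Every element of `H` is `(w 1)^k c`, `c ∈ Cy`, `k ∈ {0, 1}`.  `x` is `± h`, `h ∈ H`, and real;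
`w 1 = - i tan(π/2^(n+2))` is purely imaginary and not `0` (`conj (w 1) = (1 - ζ⁻¹)/(1 + ζ⁻¹) = - w 1`),
the elements of `Cy` are real.  So `k = 0`, `x ∈ Cy` (`-1 ∈ Cy`). -/
def HGR : Prop := ∀ (n : ℕ) (F : Multiset ℕ) (x : ℝ) (e : ℤ), 1 ≤ n →
  (∀ m ∈ F, 0 < m ∧ m < 2 ^ (n + 2)) → (e = 1 ∨ e = -1) →
  (x : ℂ) * (F.map (fun m => aeval (-zC n) (cyclotomic m ℤ))).prod =
    e * (F.map (fun m => aeval (zC n) (cyclotomic m ℤ))).prod →
  ∃ u ∈ cycUnits n, (u : ℝ) = x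

end Pool.Agent.Helper69.RF
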