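import Pool.Agent.Helper69.RF.Bas

/-!
# Project RF: theorem A from its modules
-/

set_option autoImplicit false

open Polynomial Helper62.Weber

namespace Pool.Agent.Helper69.RF

/-- the relation of a relative unit holds for every polynomial representing it -/
theorem rel_of {n : ℕ} {u : ℝˣ} (hu : u ∈ relUnits n) {p : ℚ[X]} (hp : (u : ℝ) = aeval (XR n) p) :
    aeval (XR n) p * aeval (-XR n) p = 1 := by
  obtain ⟨-, -, q, hq, hrel⟩ := hu
  have h1 : aeval (XR n) (p - q) = 0 := by rw [map_sub, ← hp, ← hq, sub_self]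
  have h2 := conj_zero (odd_half n) _ h1
  rw [← neg_XR, map_sub, sub_eq_zero] at h2
  rw [h2, ← hp, hq, hrel]

section

variable {s : ℕ} (k : Fin s → ℤ)

/-- the coordinate vector of an exponent -/
def pr (t : ℤ) (i : Fin s) : ℤ := if t = k i then 1 else if t = -k i then -1 else 0

theorem pr_zero (hk : ∀ i, 0 < k i) : pr k 0 = 0 := by
  funext i
  have := hk i
  unfold pr
  rw [if_neg (by omega), if_neg (by omega)]
  rfl

theorem pr_pos (hk : ∀ i, 0 < k i) (hinj : Function.Injective k) (j : Fin s) :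
    pr k (k j) = Pi.single j 1 := by
  funext i
  have h1 := hk i
  have h2 := hk j
  unfold pr
  by_cases h : i = j
  · rw [h, if_pos rfl, Pi.single_eq_same]
  · rw [if_neg (fun hh => h (hinj hh).symm), if_neg (by omega), Pi.single_eq_of_ne h]

theorem pr_neg (hk : ∀ i, 0 < k i) (hinj : Function.Injective k) (j : Fin s) :
    pr k (-k j) = -Pi.single j 1 := by
  funext i
  have h1 := hk i
  have h2 := hk j
  unfold pr
  by_cases h : i = j
  · rw [h, if_neg (by omega), if_pos rfl, Pi.neg_apply, Pi.single_eq_same]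
  · rw [if_neg (by omega), if_neg (fun hh => h (hinj (neg_injective hh)).symm), Pi.neg_apply,
      Pi.single_eq_of_ne h, neg_zero]

theorem pr_abs (hk : ∀ i, 0 < k i) (hinj : Function.Injective k) {t : ℤ}
    (ht : t = 0 ∨ ∃ j, t = k j ∨ t = -k j) : ∑ i, |pr k t i| ≤ 1 := by
  rcases ht with rfl | ⟨j, rfl | rfl⟩
  · rw [pr_zero k hk]; simp
  · rw [pr_pos k hk hinj]
    rw [Finset.sum_eq_single j (fun i _ hi => by rw [Pi.single_eq_of_ne hi, abs_zero])
      (fun h => absurd (Finset.mem_univ j) h), Pi.single_eq_same, abs_one]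
  · rw [pr_neg k hk hinj]
    rw [Finset.sum_eq_single j (fun i _ hi => by
      rw [Pi.neg_apply, Pi.single_eq_of_ne hi, neg_zero, abs_zero])
      (fun h => absurd (Finset.mem_univ j) h), Pi.neg_apply, Pi.single_eq_same, abs_neg, abs_one]

theorem pr_sum {R : Type*} [CommRing R] (hk : ∀ i, 0 < k i) (hinj : Function.Injective k)
    (l : Fin s → R) (j : Fin s) :
    ∑ i, ((pr k (k j) i : ℤ) : R) * l i = l j ∧ ∑ i, ((pr k (-k j) i : ℤ) : R) * l i = -l j := by
  constructor
  · rw [pr_pos k hk hinj]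
    rw [Finset.sum_eq_single j (fun i _ hi => by rw [Pi.single_eq_of_ne hi, Int.cast_zero, zero_mul])
      (fun h => absurd (Finset.mem_univ j) h), Pi.single_eq_same, Int.cast_one, one_mul]
  · rw [pr_neg k hk hinj]
    rw [Finset.sum_eq_single j (fun i _ hi => by
      rw [Pi.neg_apply, Pi.single_eq_of_ne hi, neg_zero, Int.cast_zero, zero_mul])
      (fun h => absurd (Finset.mem_univ j) h), Pi.neg_apply, Pi.single_eq_same, Int.cast_neg,
      Int.cast_one, neg_one_mul]

theorem pr_val (hk : ∀ i, 0 < k i) (hinj : Function.Injective k) {t : ℤ}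
    (ht : t = 0 ∨ ∃ j, t = k j ∨ t = -k j) : ∑ i, pr k t i * k i = t := by
  rcases ht with rfl | ⟨j, rfl | rfl⟩
  · rw [pr_zero k hk]; simp
  · have := (pr_sum k hk hinj k j).1
    simpa using this
  · have := (pr_sum k hk hinj k j).2
    simpa using this

end

/-- the combinatorial core: the support of a relative unit is large -/
theorem supp_large (hDET : DET) (hGRD : GRD) {n : ℕ} (a : ℕ → ℤ) (x y : ℝ)
    (hx : x = a 0 + ∑ k ∈ Finset.Ico 1 (2 ^ n), (a k : ℝ) * cR n k)
    (hy : y = a 0 + ∑ k ∈ Finset.Ico 1 (2 ^ n), (-1 : ℝ) ^ k * (a k : ℝ) * cR n k)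
    (hxy : x * y = 1) (hne : x * x ≠ 1) :
    n + 1 ≤ 2 * ((Finset.Ico 1 (2 ^ n)).filter (fun k => a k ≠ 0)).card := by
  classical
  set S := (Finset.Ico 1 (2 ^ n)).filter (fun k => a k ≠ 0) with hS
  set s := S.card with hs
  have hSm : ∀ k ∈ S, 1 ≤ k ∧ k < 2 ^ n ∧ a k ≠ 0 := by
    intro k hk
    rw [hS, Finset.mem_filter, Finset.mem_Ico] at hk
    exact ⟨hk.1.1, hk.1.2, hk.2⟩
  set k : Fin s → ℤ := fun i => ((S.equivFin.symm i : ℕ) : ℤ) with hkdef
  have hkS : ∀ i, ((S.equivFin.symm i : ℕ)) ∈ S := fun i => (S.equivFin.symm i).2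
  have hkpos : ∀ i, 0 < k i := fun i => by
    have := (hSm _ (hkS i)).1
    simp only [hkdef]
    omega
  have hinj : Function.Injective k := by
    intro i j hij
    have h1 : (S.equivFin.symm i : ℕ) = (S.equivFin.symm j : ℕ) :=
      Nat.cast_injective (R := ℤ) hij
    exact S.equivFin.symm.injective (Subtype.ext h1)
  have hsurj : ∀ m ∈ S, ∃ i, k i = (m : ℤ) := by
    intro m hm
    refine ⟨S.equivFin ⟨m, hm⟩, ?_⟩
    simp only [hkdef, Equiv.symm_apply_apply]
  have reduce : ∀ f : ℕ → ℝ, ∑ k ∈ Finset.Ico 1 (2 ^ n), (a k : ℝ) * f k =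
      ∑ k ∈ S, (a k : ℝ) * f k := by
    intro f
    rw [hS, Finset.sum_filter]
    apply Finset.sum_congr rfl
    intro m _
    split_ifs with h
    · rfl
    · rw [not_not.1 h, Int.cast_zero, zero_mul]
  -- the set of exponents
  set T : Finset ℤ := insert 0 (S.image (fun m : ℕ => (m : ℤ)) ∪ S.image (fun m : ℕ => -(m : ℤ)))
    with hT
  have hTm : ∀ t, t ∈ T ↔ t = 0 ∨ ∃ j, t = k j ∨ t = -k j := by
    intro t
    rw [hT, Finset.mem_insert, Finset.mem_union, Finset.mem_image, Finset.mem_image]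
    constructor
    · rintro (h | ⟨m, hm, rfl⟩ | ⟨m, hm, rfl⟩)
      · exact Or.inl h
      · obtain ⟨i, hi⟩ := hsurj m hm
        exact Or.inr ⟨i, Or.inl hi.symm⟩
      · obtain ⟨i, hi⟩ := hsurj m hm
        exact Or.inr ⟨i, Or.inr (by rw [hi])⟩
    · rintro (h | ⟨j, h | h⟩)
      · exact Or.inl h
      · exact Or.inr (Or.inl ⟨_, hkS j, h.symm⟩)
      · exact Or.inr (Or.inr ⟨_, hkS j, h.symm⟩)
  have hTb : ∀ t ∈ T, |t| < 2 ^ n := by
    intro t ht
    have hlt : ∀ j, k j < 2 ^ n := by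
      intro j
      have := Int.ofNat_lt.2 (hSm _ (hkS j)).2.1
      push_cast at this
      exact this
    rcases (hTm t).1 ht with rfl | ⟨j, rfl | rfl⟩
    · rw [abs_zero]; positivity
    · rw [abs_of_pos (hkpos j)]
      exact hlt j
    · rw [abs_neg, abs_of_pos (hkpos j)]
      exact hlt j
  have hTsum : ∀ g : ℤ → ℂ, ∑ t ∈ T, g t = g 0 + ∑ m ∈ S, (g m + g (-m)) := by
    intro g
    have h0 : (0 : ℤ) ∉ S.image (fun m : ℕ => (m : ℤ)) ∪ S.image (fun m : ℕ => -(m : ℤ)) := by
      rw [Finset.mem_union, Finset.mem_image, Finset.mem_image]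
      rintro (⟨m, hm, h⟩ | ⟨m, hm, h⟩)
      · have := (hSm m hm).1; omega
      · have := (hSm m hm).1; omega
    have hdis : Disjoint (S.image (fun m : ℕ => (m : ℤ))) (S.image (fun m : ℕ => -(m : ℤ))) := by
      rw [Finset.disjoint_left]
      intro t h1 h2
      rw [Finset.mem_image] at h1 h2
      obtain ⟨m, hm, rfl⟩ := h1
      obtain ⟨m', hm', h⟩ := h2
      have := (hSm m hm).1
      omega
    rw [hT, Finset.sum_insert h0, Finset.sum_union hdis, Finset.sum_image, Finset.sum_image,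
      ← Finset.sum_add_distrib]
    · intro m _ m' _ h
      simp only [neg_inj, Nat.cast_inj] at h
      exact h
    · intro m _ m' _ h
      simp only [Nat.cast_inj] at h
      exact h
  have hz0 : zC n ≠ 0 := (zC_prim n).ne_zero (by positivity)
  have hX : ∑ t ∈ T, ((a t.natAbs : ℤ) : ℂ) * zC n ^ t = (x : ℂ) := by
    rw [hTsum, hx, reduce]
    push_cast
    simp only [Int.natAbs_zero, zpow_zero, mul_one, Int.natAbs_natCast, Int.natAbs_neg]
    congr 1
    apply Finset.sum_congr rfl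
    intro m _
    rw [cR_C, zpow_natCast, zpow_neg, zpow_natCast]
    ring
  have hY : ∑ t ∈ T, (-1 : ℂ) ^ t * ((a t.natAbs : ℤ) : ℂ) * zC n ^ t = (y : ℂ) := by
    have e1 : ∑ k ∈ Finset.Ico 1 (2 ^ n), (-1 : ℝ) ^ k * (a k : ℝ) * cR n k =
        ∑ k ∈ Finset.Ico 1 (2 ^ n), (a k : ℝ) * ((-1 : ℝ) ^ k * cR n k) :=
      Finset.sum_congr rfl (fun m _ => by ring)
    rw [hTsum, hy, e1, reduce]
    push_cast
    simp only [Int.natAbs_zero, zpow_zero, mul_one, one_mul, Int.natAbs_natCast, Int.natAbs_neg]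
    congr 1
    apply Finset.sum_congr rfl
    intro m _
    have e2 : ((-1 : ℂ) ^ m)⁻¹ = (-1) ^ m := by
      rcases neg_one_pow_eq_or ℂ m with h | h <;> rw [h] <;> norm_num
    rw [cR_C]
    simp only [zpow_neg, zpow_natCast, e2]
    ring
  -- apply DET
  set R : Set (Fin s → ℤ) := {r | ∃ t ∈ T, ∃ t' ∈ T, ∃ w ∈ T, ∃ w' ∈ T,
    ((2 : ℤ) ^ (n + 1)) ∣ t + t' - (w + w') ∧
      r = fun i => pr k t i + pr k t' i - (pr k w i + pr k w' i)} with hR
  have hfin : 2 ^ (n + 1) ≤ 4 ^ s := by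
    apply hDET s (n + 1) k R
    · rintro r ⟨t, ht, t', ht', w, hw, w', hw', -, rfl⟩
      have b1 := pr_abs k hkpos hinj ((hTm t).1 ht)
      have b2 := pr_abs k hkpos hinj ((hTm t').1 ht')
      have b3 := pr_abs k hkpos hinj ((hTm w).1 hw)
      have b4 := pr_abs k hkpos hinj ((hTm w').1 hw')
      have b5 : ∑ i, |pr k t i + pr k t' i - (pr k w i + pr k w' i)| ≤
          ∑ i, (|pr k t i| + |pr k t' i| + (|pr k w i| + |pr k w' i|)) := by
        apply Finset.sum_le_sum
        intro i _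
        refine (abs_sub _ _).trans ?_
        exact add_le_add (abs_add_le _ _) (abs_add_le _ _)
      rw [Finset.sum_add_distrib, Finset.sum_add_distrib, Finset.sum_add_distrib] at b5
      linarith
    · rintro r ⟨t, ht, t', ht', w, hw, w', hw', hd, rfl⟩
      have v1 := pr_val k hkpos hinj ((hTm t).1 ht)
      have v2 := pr_val k hkpos hinj ((hTm t').1 ht')
      have v3 := pr_val k hkpos hinj ((hTm w).1 hw)
      have v4 := pr_val k hkpos hinj ((hTm w').1 hw')
      have v5 : ∑ i, (pr k t i + pr k t' i - (pr k w i + pr k w' i)) * k i =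
          t + t' - (w + w') := by
        rw [← v1, ← v2, ← v3, ← v4, ← Finset.sum_add_distrib, ← Finset.sum_add_distrib,
          ← Finset.sum_sub_distrib]
        exact Finset.sum_congr rfl (fun i _ => by rw [v1, v2, v3, v4]; ring)
      rw [v5]
      exact hd
    · intro l hl
      set Lf : ℤ → ℚ := fun t => ∑ i, ((pr k t i : ℤ) : ℚ) * l i with hLf
      have hL0 : Lf 0 = 0 := by
        simp only [hLf, pr_zero k hkpos]
        simp
      have hle : ∀ t ∈ T, Lf t ≤ 0 := by
        apply hGRD (2 ^ (n + 1)) (zC n) Nat.one_le_two_pow (zC_half n) (indep n) T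
          (fun t => a t.natAbs) Lf
        · intro t ht t' ht' hd
          have h1 := hTb t ht
          have h2 := hTb t' ht'
          have h3 : |t - t'| < ((2 ^ (n + 1) : ℕ) : ℤ) := by
            have := abs_sub t t'
            push_cast
            rw [pow_succ]
            linarith
          have h4 := Int.eq_zero_of_abs_lt_dvd hd h3
          omega
        · exact (hTm 0).2 (Or.inl rfl)
        · intro t ht h0
          rcases (hTm t).1 ht with rfl | ⟨j, rfl | rfl⟩
          · exact absurd rfl h0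
          · simp only [hkdef, Int.natAbs_natCast]
            exact (hSm _ (hkS j)).2.2
          · simp only [hkdef, Int.natAbs_natCast, Int.natAbs_neg]
            exact (hSm _ (hkS j)).2.2
        · exact hL0
        · intro t ht t' ht' w hw w' hw' hd
          have hmem : (fun i => pr k t i + pr k t' i - (pr k w i + pr k w' i)) ∈ R :=
            ⟨t, ht, t', ht', w, hw, w', hw', by exact_mod_cast hd, rfl⟩
          have h1 := hl _ hmem
          have h2 : ∑ i, (((pr k t i + pr k t' i - (pr k w i + pr k w' i) : ℤ)) : ℚ) * l i =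
              Lf t + Lf t' - (Lf w + Lf w') := by
            simp only [hLf]
            rw [← Finset.sum_add_distrib, ← Finset.sum_add_distrib, ← Finset.sum_sub_distrib]
            apply Finset.sum_congr rfl
            intro i _
            push_cast
            ring
          rw [h2] at h1
          linarith
        · rw [hX, hY, ← Complex.ofReal_mul, hxy, Complex.ofReal_one]
      funext i
      have m1 := hle (k i) ((hTm _).2 (Or.inr ⟨i, Or.inl rfl⟩))
      have m2 := hle (-k i) ((hTm _).2 (Or.inr ⟨i, Or.inr rfl⟩))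
      simp only [hLf] at m1 m2
      rw [(pr_sum k hkpos hinj l i).1] at m1
      rw [(pr_sum k hkpos hinj l i).2] at m2
      rw [Pi.zero_apply]
      linarith
    · by_contra hodd
      apply hne
      have hev : ∀ m ∈ S, Even m := by
        intro m hm
        obtain ⟨i, hi⟩ := hsurj m hm
        by_contra h
        apply hodd
        refine ⟨i, ?_⟩
        rw [hi]
        exact_mod_cast Nat.not_even_iff_odd.1 h
      have e1 : ∑ k ∈ Finset.Ico 1 (2 ^ n), (-1 : ℝ) ^ k * (a k : ℝ) * cR n k =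
          ∑ k ∈ Finset.Ico 1 (2 ^ n), (a k : ℝ) * ((-1 : ℝ) ^ k * cR n k) :=
        Finset.sum_congr rfl (fun m _ => by ring)
      have e2 : y = x := by
        rw [hx, hy, e1, reduce, reduce]
        congr 1
        apply Finset.sum_congr rfl
        intro m hm
        rw [(hev m hm).neg_one_pow, one_mul]
      rw [e2] at hxy
      exact hxy
  have h4 : (4 : ℕ) ^ s = 2 ^ (2 * s) := by rw [pow_mul]; norm_num
  rw [h4] at hfin
  exact (Nat.pow_le_pow_iff_right (by norm_num)).1 hfin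

/-- the coordinates of a relative unit -/
theorem coords (hDET : DET) (hGRD : GRD) (hCOO : COO) (hPAR : PAR) (hASC : ASC) (hEVN : EVN)
    {n : ℕ} (hn : 1 ≤ n) {u : ℝˣ} (hu : u ∈ relUnits n) :
    ∃ a : ℕ → ℤ, Odd (a 0) ∧ (∀ k ∈ Finset.Ico 1 (2 ^ n), Even (a k)) ∧
      (u : ℝ) = a 0 + ∑ k ∈ Finset.Ico 1 (2 ^ n), (a k : ℝ) * cR n k ∧
      (u ≠ 1 → u ≠ -1 →
        n + 1 ≤ 2 * ((Finset.Ico 1 (2 ^ n)).filter (fun k => a k ≠ 0)).card) := by
  obtain ⟨p, hp⟩ : ∃ p : ℚ[X], (u : ℝ) = aeval (XR n) p := ⟨_, hu.2.2.choose_spec.1⟩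
  have hint := hEVN hCOO hASC n u hn hu
  have e1 : ((u : ℝ) - 1) / 2 = aeval (XR n) (C (1 / 2 : ℚ) * (p - 1)) := by
    rw [map_mul, map_sub, map_one, ← hp, aeval_C]
    simp
    ring
  obtain ⟨c, hc⟩ := hCOO n _ _ hint e1
  set a : ℕ → ℤ := fun k => if k = 0 then 1 + 2 * c 0 else 2 * c k with ha
  have ha0 : a 0 = 1 + 2 * c 0 := by simp [ha]
  have hak : ∀ k ∈ Finset.Ico 1 (2 ^ n), a k = 2 * c k := by
    intro k hk
    rw [Finset.mem_Ico] at hk
    simp only [ha]
    rw [if_neg (by omega)]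
  have hx : aeval (XR n) p = a 0 + ∑ k ∈ Finset.Ico 1 (2 ^ n), (a k : ℝ) * cR n k := by
    have e2 : (u : ℝ) = 1 + 2 * (((u : ℝ) - 1) / 2) := by ring
    rw [← hp, e2, hc, ha0, mul_add, Finset.mul_sum]
    push_cast
    rw [← add_assoc]
    congr 1
    apply Finset.sum_congr rfl
    intro k hk
    rw [hak k hk]
    push_cast
    ring
  obtain ⟨-, hτ⟩ := hPAR n a p hx
  have hrel := rel_of hu hp
  refine ⟨a, ⟨c 0, by rw [ha0]; ring⟩, fun k hk => ⟨c k, by rw [hak k hk]; ring⟩,
    by rw [hp]; exact hx, ?_⟩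
  intro h1 h2
  have hne : aeval (XR n) p * aeval (XR n) p ≠ 1 := by
    rw [← hp]
    intro h
    rcases mul_self_eq_one_iff.1 h with h | h
    · exact h1 (Units.ext (by rw [h, Units.val_one]))
    · exact h2 (Units.ext (by rw [h, Units.val_neg, Units.val_one]))
  exact supp_large hDET hGRD a _ _ hx hτ hrel hne

theorem topA (hDET : DET) (hGRD : GRD) (hCOO : COO) (hPAR : PAR) (hASC : ASC) (hEVN : EVN)
    {n : ℕ} (hn : 1 ≤ n) {u : ℝˣ} (hu : u ∈ relUnits n) (h1 : u ≠ 1) (h2 : u ≠ -1) {p : ℚ[X]}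
    (hp : (u : ℝ) = aeval (XR n) p) :
    (2 : ℝ) ^ n * (4 * n + 5) ≤ ∑ i ∈ Finset.range (2 ^ n), (aeval (cR n (2 * i + 1)) p) ^ 2 := by
  obtain ⟨a, hodd, heven, hx, hcard⟩ := coords hDET hGRD hCOO hPAR hASC hEVN hn hu
  have hs := hcard h1 h2
  obtain ⟨hP, -⟩ := hPAR n a p (by rw [← hp]; exact hx)
  set S := (Finset.Ico 1 (2 ^ n)).filter (fun k => a k ≠ 0) with hS
  rw [hP]
  have b1 : (1 : ℝ) ≤ (a 0 : ℝ) ^ 2 := by
    have h0 : a 0 ≠ 0 := by
      intro h
      rw [h] at hodd
      exact absurd hodd (by decide)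
    have : (1 : ℤ) ≤ (a 0) ^ 2 := by
      have := sq_nonneg (a 0)
      have h3 : (a 0) ^ 2 ≠ 0 := pow_ne_zero 2 h0
      omega
    exact_mod_cast this
  have b2 : (4 : ℝ) * S.card ≤ ∑ k ∈ Finset.Ico 1 (2 ^ n), (a k : ℝ) ^ 2 := by
    have h3 : ∑ k ∈ S, (4 : ℝ) ≤ ∑ k ∈ S, (a k : ℝ) ^ 2 := by
      apply Finset.sum_le_sum
      intro k hk
      rw [hS, Finset.mem_filter] at hk
      obtain ⟨c, h4⟩ := heven k hk.1
      have h5 : c ≠ 0 := by
        intro h
        rw [h] at h4
        exact hk.2 (by rw [h4]; rfl)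
      have h6 : (1 : ℤ) ≤ c ^ 2 := by
        have := sq_nonneg c
        have h3 : c ^ 2 ≠ 0 := pow_ne_zero 2 h5
        omega
      have h7 : (4 : ℤ) ≤ (a k) ^ 2 := by
        rw [h4]
        nlinarith
      exact_mod_cast h7
    rw [Finset.sum_const, nsmul_eq_mul, mul_comm] at h3
    refine h3.trans ?_
    rw [hS]
    exact Finset.sum_le_sum_of_subset_of_nonneg (Finset.filter_subset _ _)
      (fun _ _ _ => sq_nonneg _)
  have b3 : ((n : ℝ) + 1) ≤ 2 * S.card := by exact_mod_cast hs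
  apply mul_le_mul_of_nonneg_left _ (by positivity)
  linarith

/-- in each layer only finitely many relative units have all conjugates at most `C` -/
theorem layer_fin (hCOO : COO) (hPAR : PAR) (n : ℕ) (C : ℝ) :
    {u : ℝˣ | u ∈ relUnits n ∧ ∃ p : ℚ[X], (u : ℝ) = aeval (XR n) p ∧
      ∀ i < 2 ^ n, |aeval (cR n (2 * i + 1)) p| ≤ C}.Finite := by
  classical
  obtain ⟨M, hM⟩ := exists_nat_ge (C ^ 2)
  set D : Set (Fin (2 ^ n) → ℤ) := Set.pi Set.univ (fun _ => Set.Icc (-(M : ℤ)) M) with hD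
  have hDfin : D.Finite := Set.Finite.pi (fun _ => Set.finite_Icc _ _)
  set F : (Fin (2 ^ n) → ℤ) → ℝ := fun b => ∑ k : Fin (2 ^ n),
    (b k : ℝ) * (if (k : ℕ) = 0 then 1 else cR n k) with hF
  have h1 : {u : ℝˣ | u ∈ relUnits n ∧ ∃ p : ℚ[X], (u : ℝ) = aeval (XR n) p ∧
      ∀ i < 2 ^ n, |aeval (cR n (2 * i + 1)) p| ≤ C} ⊆ Units.val ⁻¹' (F '' D) := by
    rintro u ⟨hu, p, hp, hC⟩
    obtain ⟨a, ha⟩ := hCOO n _ _ hu.1 hp
    obtain ⟨hP, -⟩ := hPAR n a p (by rw [← hp]; exact ha)
    refine ⟨fun k => a k, ?_, ?_⟩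
    · have h2 : ∑ i ∈ Finset.range (2 ^ n), (aeval (cR n (2 * i + 1)) p) ^ 2 ≤
          2 ^ n * (M : ℝ) := by
        have h3 : ∀ i ∈ Finset.range (2 ^ n), (aeval (cR n (2 * i + 1)) p) ^ 2 ≤ (M : ℝ) := by
          intro i hi
          have h4 := hC i (Finset.mem_range.1 hi)
          rw [← sq_abs]
          exact (pow_le_pow_left₀ (abs_nonneg _) h4 2).trans hM
        have h5 := Finset.sum_le_sum h3
        rw [Finset.sum_const, Finset.card_range, nsmul_eq_mul] at h5
        exact_mod_cast h5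
      rw [hP] at h2
      have h3 := le_of_mul_le_mul_left h2 (by positivity)
      have h4 : ∀ k : ℕ, k < 2 ^ n → (a k : ℝ) ^ 2 ≤ M := by
        intro k hk
        rcases Nat.eq_zero_or_pos k with h0 | h0
        · rw [h0]
          have : 0 ≤ ∑ k ∈ Finset.Ico 1 (2 ^ n), (a k : ℝ) ^ 2 :=
            Finset.sum_nonneg (fun _ _ => sq_nonneg _)
          linarith
        · have h5 : (a k : ℝ) ^ 2 ≤ ∑ k ∈ Finset.Ico 1 (2 ^ n), (a k : ℝ) ^ 2 :=
            Finset.single_le_sum (f := fun k => (a k : ℝ) ^ 2) (fun _ _ => sq_nonneg _)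
              (Finset.mem_Ico.2 ⟨h0, hk⟩)
          have h6 := sq_nonneg (a 0 : ℝ)
          have h7 := sq_nonneg (a k : ℝ)
          linarith
      intro k _
      have h5 := h4 k k.2
      have h6 : (a k) ^ 2 ≤ (M : ℤ) := by exact_mod_cast h5
      have h7 : |a k| ≤ (a k) ^ 2 := by
        rw [← sq_abs]
        rcases (abs_nonneg (a k)).eq_or_lt with h | h
        · rw [← h]; norm_num
        · nlinarith
      rw [Set.mem_Icc, ← abs_le]
      exact h7.trans h6
    · rw [ha, hF]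
      simp only
      have hpos : 0 < 2 ^ n := by positivity
      have e1 := Finset.sum_range (n := 2 ^ n)
        (fun k => (a k : ℝ) * (if k = 0 then 1 else cR n k))
      rw [← e1, Finset.range_eq_Ico, Finset.sum_eq_sum_Ico_succ_bot hpos, if_pos rfl, mul_one]
      congr 1
      apply Finset.sum_congr rfl
      intro k hk
      rw [Finset.mem_Ico] at hk
      rw [if_neg (by omega)]
  exact ((hDfin.image F).preimage Units.val_injective.injOn).subset h1

end Pool.Agent.Helper69.RF
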