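import Pool.Agent.Helper69.RF.Bas

/-!
# Project RF: theorem B from its modules
-/

set_option autoImplicit false

open Polynomial Helper62.Weber

namespace Pool.Agent.Helper69.RF

theorem aeval_neg_comp {R : Type*} [CommRing R] (x : R) (p : ℤ[X]) :
    aeval x (p.comp (-X)) = aeval (-x) p := by
  rw [aeval_comp, map_neg, aeval_X]

theorem large_ne {Q : ℤ[X]} (hQ : Q ≠ 0) : ∃ N : ℕ, ∀ n ≥ N, aeval (XR n) Q ≠ 0 := by
  have h1 : (Q.map (Int.castRingHom ℝ)) ≠ 0 := (Polynomial.map_ne_zero_iff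
    (RingHom.injective_int (Int.castRingHom ℝ))).2 hQ
  have h2 : {n : ℕ | aeval (XR n) Q = 0}.Finite := by
    apply Set.Finite.of_finite_image (f := XR) _ XR_inj.injOn
    apply ((Q.map (Int.castRingHom ℝ)).roots.toFinset.finite_toSet).subset
    rintro _ ⟨n, hn, rfl⟩
    rw [Finset.mem_coe, Multiset.mem_toFinset, mem_roots h1, IsRoot.def, eval_map]
    exact hn
  obtain ⟨N, hN⟩ := h2.bddAbove
  refine ⟨N + 1, fun n hn h => ?_⟩
  have := hN h
  omega

/-- the relation of `g / h` at `X_m` -/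
theorem rel_gh {m : ℕ} {g h : ℤ[X]} {u : ℝˣ} (hu : u ∈ relUnits m)
    (he : (u : ℝ) = aeval (XR m) g / aeval (XR m) h) :
    aeval (XR m) h ≠ 0 ∧
      aeval (XR m) g * aeval (-XR m) g = aeval (XR m) h * aeval (-XR m) h := by
  have h0 : aeval (XR m) h ≠ 0 := by
    intro h
    rw [h, div_zero] at he
    exact u.ne_zero he
  refine ⟨h0, ?_⟩
  obtain ⟨-, -, p, hp, hrel⟩ := hu
  have h1 : aeval (XR m) g = (u : ℝ) * aeval (XR m) h := by
    rw [he, div_mul_cancel₀ _ h0]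
  have h2 : aeval (XR m) (p * h.map (Int.castRingHom ℚ) - g.map (Int.castRingHom ℚ)) = 0 := by
    rw [map_sub, map_mul, ← aeval_Z, ← aeval_Z, ← hp, h1, sub_self]
  have h3 := conj_zero (odd_half m) _ h2
  rw [← neg_XR, map_sub, map_mul, ← aeval_Z, ← aeval_Z, sub_eq_zero] at h3
  rw [h1, hp, ← h3]
  calc aeval (XR m) p * aeval (XR m) h * (aeval (-XR m) p * aeval (-XR m) h) =
      (aeval (XR m) p * aeval (-XR m) p) * (aeval (XR m) h * aeval (-XR m) h) := by ring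
    _ = aeval (XR m) h * aeval (-XR m) h := by rw [hrel, one_mul]

theorem neg_one_mem_cyc (n : ℕ) : (-1 : ℝˣ) ∈ cycUnits n := Subgroup.subset_closure (Or.inl rfl)

/-- the final step: units with all roots of absolute value one are cyclotomic -/
theorem cyc_step (hKRO : KRO) (hHGR : HGR) (P : ℤ[X]) (hP : P ≠ 0)
    (hlc : P.leadingCoeff = 1 ∨ P.leadingCoeff = -1)
    (hβ : ∀ β : ℂ, β ≠ 0 → aeval (β + β⁻¹) P = 0 → ‖β‖ = 1) :
    ∃ N : ℕ, ∀ n ≥ N, ∃ u ∈ cycUnits n, (u : ℝ) = aeval (XR n) P / aeval (-XR n) P := by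
  obtain ⟨F, hF, hFz⟩ := hKRO P hlc hβ
  have hPn : P.comp (-X) ≠ 0 := by
    intro h
    have h1 := congrArg (fun q : ℤ[X] => q.comp (-X)) h
    simp only [comp_assoc, neg_comp, X_comp, neg_neg, comp_X, zero_comp] at h1
    exact hP h1
  obtain ⟨N1, hN1⟩ := large_ne hPn
  refine ⟨N1 + F.sum + 1, ?_⟩
  intro n hn
  have hne : aeval (-XR n) P ≠ 0 := by
    rw [← aeval_neg_comp]
    exact hN1 n (by omega)
  have hz : zC n ≠ 0 := (zC_prim n).ne_zero (by positivity)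
  have e1 := hFz (zC n) hz
  have e2 := hFz (-zC n) (neg_ne_zero.2 hz)
  rw [← XR_eq] at e1
  have e3 : -zC n + (-zC n)⁻¹ = ((-XR n : ℝ) : ℂ) := by
    rw [Complex.ofReal_neg, XR_eq, inv_neg]
    ring
  rw [e3] at e2
  have cast : ∀ x : ℝ, aeval ((x : ℝ) : ℂ) P = ((aeval x P : ℝ) : ℂ) := fun x =>
    (aeval_algebraMap_apply ℂ x P)
  rw [cast] at e1 e2
  have hne' : ((aeval (-XR n) P : ℝ) : ℂ) ≠ 0 := Complex.ofReal_ne_zero.2 hne
  apply hHGR n F (aeval (XR n) P / aeval (-XR n) P) ((-1) ^ P.natDegree) (by omega)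
  · intro m hm
    refine ⟨hF m hm, ?_⟩
    have h1 : m ≤ F.sum := Multiset.le_sum_of_mem hm
    have h2 : n < 2 ^ n := Nat.lt_two_pow_self
    have h3 : 2 ^ n ≤ 2 ^ (n + 2) := Nat.pow_le_pow_right (by norm_num) (by omega)
    omega
  · exact neg_one_pow_eq_or ℤ _
  · have ha : ((P.leadingCoeff : ℤ) : ℂ) * (P.leadingCoeff : ℂ) = 1 := by
      rcases hlc with h | h <;> rw [h] <;> norm_num
    set a : ℂ := (P.leadingCoeff : ℂ) with haa
    set r := P.natDegree with hr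
    set F1 := (F.map (fun m => aeval (zC n) (cyclotomic m ℤ))).prod with hF1
    set F2 := (F.map (fun m => aeval (-zC n) (cyclotomic m ℤ))).prod with hF2
    have e4 : F2 = a * ((-zC n) ^ r * ((aeval (-XR n) P : ℝ) : ℂ)) := by
      rw [e2, ← mul_assoc, ha, one_mul]
    have e5 : F1 = a * (zC n ^ r * ((aeval (XR n) P : ℝ) : ℂ)) := by
      rw [e1, ← mul_assoc, ha, one_mul]
    have e6 : (-zC n) ^ r = (-1) ^ r * zC n ^ r := by rw [← neg_one_mul, mul_pow]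
    rw [e4, e5, e6]
    push_cast
    field_simp

theorem topB (hRAT : RAT) (hASC : ASC) (hUNT : UNT) (hPSI : PSI) (hNRM : NRM) (hMAH : MAH)
    (hKRO : KRO) (hHGR : HGR) (g h : ℤ[X]) (hh : h ≠ 0) :
    (∃ N : ℕ, ∀ n ≥ N, ∃ u ∈ cycUnits n, (u : ℝ) = aeval (XR n) g / aeval (XR n) h) ∨
    (∃ N : ℕ, ∀ n ≥ N, {m | n ≤ m ∧ m ≤ n ^ 2 ∧
      ∃ u ∈ relUnits m, (u : ℝ) = aeval (XR m) g / aeval (XR m) h}.ncard ≤ g.natDegree) := by
  by_cases hsec : ∃ N : ℕ, ∀ n ≥ N, {m | n ≤ m ∧ m ≤ n ^ 2 ∧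
      ∃ u ∈ relUnits m, (u : ℝ) = aeval (XR m) g / aeval (XR m) h}.ncard ≤ g.natDegree
  · exact Or.inr hsec
  left
  push Not at hsec
  set A : Set ℕ := {m | ∃ u ∈ relUnits m, (u : ℝ) = aeval (XR m) g / aeval (XR m) h} with hA
  have hAI : ∀ n, {m | n ≤ m ∧ m ≤ n ^ 2 ∧
      ∃ u ∈ relUnits m, (u : ℝ) = aeval (XR m) g / aeval (XR m) h} = A ∩ Set.Icc n (n ^ 2) := by
    intro n
    ext m
    simp only [hA, Set.mem_setOf_eq, Set.mem_inter_iff, Set.mem_Icc]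
    tauto
  have hsec' : ∀ N : ℕ, ∃ n ≥ N, g.natDegree < (A ∩ Set.Icc n (n ^ 2)).ncard := by
    intro N
    obtain ⟨n, hn, h1⟩ := hsec N
    rw [hAI] at h1
    exact ⟨n, hn, h1⟩
  have hinf : A.Infinite := by
    intro hfin
    obtain ⟨b, hb⟩ := hfin.bddAbove
    obtain ⟨n, hn, h1⟩ := hsec' (b + 1)
    have h2 : A ∩ Set.Icc n (n ^ 2) = ∅ := by
      rw [Set.eq_empty_iff_forall_notMem]
      rintro m ⟨hm, hm'⟩
      have h3 := hb hm
      have h4 := hm'.1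
      omega
    rw [h2, Set.ncard_empty] at h1
    omega
  -- the polynomial identity
  have hid : g * g.comp (-X) = h * h.comp (-X) := by
    have hz : (g * g.comp (-X) - h * h.comp (-X)).map (Int.castRingHom ℝ) = 0 := by
      apply eq_zero_of_infinite_isRoot
      apply (hinf.image XR_inj.injOn).mono
      rintro _ ⟨m, ⟨u, hu, he⟩, rfl⟩
      have h1 := (rel_gh hu he).2
      rw [Set.mem_setOf_eq, IsRoot.def, eval_map]
      change aeval (XR m) (g * g.comp (-X) - h * h.comp (-X)) = 0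
      rw [map_sub, map_mul, map_mul, aeval_neg_comp, aeval_neg_comp, h1, sub_self]
    have h2 := (Polynomial.map_eq_zero_iff (RingHom.injective_int (Int.castRingHom ℝ))).1 hz
    exact sub_eq_zero.1 h2
  obtain ⟨P, e, hPp, hee, hdeg, hcop, hgP⟩ := hRAT g h hh hid
  have hP0 : P ≠ 0 := hPp.ne_zero
  have hPn0 : P.comp (-X) ≠ 0 := by
    intro h
    have h1 := congrArg (fun q : ℤ[X] => q.comp (-X)) h
    simp only [comp_assoc, neg_comp, X_comp, neg_neg, comp_X, zero_comp] at h1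
    exact hP0 h1
  obtain ⟨N1, hN1⟩ := large_ne hP0
  obtain ⟨N2, hN2⟩ := large_ne hPn0
  obtain ⟨N3, hN3⟩ := large_ne hh
  obtain ⟨s, N4, hN4⟩ := hUNT hASC P hPp hcop
  have heR : ((e : ℤ) : ℝ) * e = 1 := by
    rcases hee with h | h <;> rw [h] <;> norm_num
  have hval : ∀ n ≥ N1 + N2 + N3, aeval (XR n) g / aeval (XR n) h =
      e * (aeval (XR n) P / aeval (-XR n) P) := by
    intro n hn
    have h1 := congrArg (fun q : ℤ[X] => aeval (XR n) q) hgP
    simp only [map_mul, aeval_neg_comp] at h1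
    have h2 : aeval (-XR n) P ≠ 0 := by rw [← aeval_neg_comp]; exact hN2 n (by omega)
    have h3 : aeval (XR n) h ≠ 0 := hN3 n (by omega)
    have h4 : aeval (XR n) (C e : ℤ[X]) = (e : ℝ) := by
      rw [aeval_C]
      rfl
    rw [h4] at h1
    rw [div_eq_iff h3]
    field_simp
    linarith
  set N5 := N1 + N2 + N3 + N4 + 1 with hN5
  set A' : Set ℕ := {m | m ∈ A ∧ N5 ≤ m} with hA'
  have hprod : ∀ m ∈ A', |∏ i ∈ Finset.range (2 ^ m), aeval (cR m (2 * i + 1)) P| ≤ 2 ^ s := by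
    rintro m ⟨⟨u, hu, he⟩, hm⟩
    have h1 : aeval (XR m) P ≠ 0 := hN1 m (by omega)
    have h2 : aeval (-XR m) P ≠ 0 := by rw [← aeval_neg_comp]; exact hN2 m (by omega)
    have h3 : IsIntegral ℤ (aeval (-XR m) P / aeval (XR m) P) := by
      have h4 : aeval (-XR m) P / aeval (XR m) P = e * (u : ℝ)⁻¹ := by
        rw [he, hval m (by omega), mul_inv, inv_div, ← mul_assoc]
        have h5 : (e : ℝ) * (e : ℝ)⁻¹ = 1 := mul_inv_cancel₀ (by
          intro h0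
          rw [h0, zero_mul] at heR
          exact zero_ne_one heR)
        rw [h5, one_mul]
      rw [h4]
      exact (isIntegral_algebraMap (R := ℤ) (x := e)).mul hu.2.1
    obtain ⟨h5, h6⟩ := hN4 m (by omega) h1 h2 h3
    exact (hNRM hPSI P m s (by omega) h1 h5 h6).le
  have hmany : ∀ N : ℕ, ∃ n ≥ N, P.natDegree < (A' ∩ Set.Icc n (n ^ 2)).ncard := by
    intro N
    obtain ⟨n, hn, h1⟩ := hsec' (N + N5)
    refine ⟨n, by omega, ?_⟩
    have h2 : A' ∩ Set.Icc n (n ^ 2) = A ∩ Set.Icc n (n ^ 2) := by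
      ext m
      simp only [hA', Set.mem_inter_iff, Set.mem_setOf_eq, Set.mem_Icc]
      constructor
      · rintro ⟨⟨a, -⟩, b⟩
        exact ⟨a, b⟩
      · rintro ⟨a, b⟩
        exact ⟨⟨a, by omega⟩, b⟩
    rw [h2]
    omega
  obtain ⟨hlc, hβ⟩ := hMAH hPSI P (2 ^ s) A' hP0 hprod hmany
  obtain ⟨N6, hN6⟩ := cyc_step hKRO hHGR P hP0 hlc hβ
  refine ⟨N6 + N5, fun n hn => ?_⟩
  obtain ⟨u, hu, he⟩ := hN6 n (by omega)
  rcases hee with h1 | h1
  · refine ⟨u, hu, ?_⟩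
    rw [hval n (by omega), h1, he]
    push_cast
    ring
  · refine ⟨-1 * u, Subgroup.mul_mem _ (neg_one_mem_cyc n) hu, ?_⟩
    rw [hval n (by omega), h1, Units.val_mul, he]
    push_cast
    ring

end Pool.Agent.Helper69.RF
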